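import Pool.Agent.X20.Tr.AvE

/-!
# One-parameter multiple polynomial averages along `⌊α n ^ c⌋`

From Mathlib: `Equiv.Perm X`: the bijections of `X`, with composition as multiplication; `Polynomial.eval`: evaluation;
`AEStronglyMeasurable`: measurability up to null sets; `dimH E`: the Hausdorff dimension of `E`; `⌊x⌋₊`: the integer
part; `𝓝`: neighbourhoods.
-/

set_option autoImplicit false

namespace Pool.Agent.Results.MP_f720ae_an.AlongDilatedPowers

open Finset Filter Topology MeasureTheory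
open Pool.Agent.X20.Tr

universe u

/-- the composition `T 1 ^ (P 1 j (m)) ⋯ T d ^ (P d j (m))` -/
def S {X : Type u} {d k : ℕ} (T : Fin d → Equiv.Perm X) (P : Fin d → Fin k → Polynomial ℤ) (j : Fin k) (m : ℤ) :
    Equiv.Perm X :=
  (List.ofFn fun i : Fin d => T i ^ (P i j).eval m).prod

/-- the average of `∏ j, f j (S j (m) x)` over `m = s n`, `n ≤ N` -/
noncomputable def avg {X : Type u} {d k : ℕ} (T : Fin d → Equiv.Perm X) (P : Fin d → Fin k → Polynomial ℤ)
    (f : Fin k → X → ℂ) (s : ℕ → ℕ) (x : X) (N : ℕ) : ℂ :=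
  (1 / (N : ℂ)) * ∑ n ∈ Icc 1 N, ∏ j, f j (S T P j (s n) x)

/-- the invertible measure preserving maps -/
def mpg {X : Type u} [MeasurableSpace X] (μ : Measure X) : Subgroup (Equiv.Perm X) where
  carrier := {σ | MeasurePreserving σ μ μ ∧ MeasurePreserving σ.symm μ μ}
  mul_mem' := by
    rintro σ τ ⟨h1, h2⟩ ⟨h3, h4⟩
    exact ⟨h1.comp h3, h4.comp h2⟩
  one_mem' := ⟨MeasurePreserving.id μ, MeasurePreserving.id μ⟩
  inv_mem' := by
    rintro σ ⟨h1, h2⟩
    exact ⟨h2, h1⟩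

lemma mem_mpg {X : Type u} [MeasurableSpace X] {μ : Measure X} {σ : Equiv.Perm X} (h1 : Measurable σ.symm)
    (h2 : MeasurePreserving σ μ μ) : σ ∈ mpg μ := by
  refine ⟨h2, ?_⟩
  have h3 : MeasurePreserving (⟨σ, h2.measurable, h1⟩ : X ≃ᵐ X) μ μ := h2
  exact h3.symm

lemma S_mem {X : Type u} [MeasurableSpace X] {μ : Measure X} {d k : ℕ} {T : Fin d → Equiv.Perm X}
    (hT : ∀ i, T i ∈ mpg μ) (P : Fin d → Fin k → Polynomial ℤ) (j : Fin k) (m : ℤ) : S T P j m ∈ mpg μ := by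
  unfold S
  apply Subgroup.list_prod_mem
  intro σ hσ
  rw [List.mem_ofFn] at hσ
  obtain ⟨i, rfl⟩ := hσ
  exact Subgroup.zpow_mem _ (hT i) _

/-- For every real `c > 1` there is `0 < κ < 1` such that for all invertible measure preserving maps `T 1, …, T d` of a
probability space (no relation between them is assumed), all integer polynomials `P i j` and all `f 1, …, f k` in `L^∞`:

* for almost every `x` there is a set `E` of Hausdorff dimension at most `1 - κ` such that for every real `α > 0` outside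
  `E` the averages over the integers converge to `L` if and only if those along `⌊α n ^ c⌋` converge to `L`;
* for almost every `α > 0` this holds for almost every `x`;
* for almost every `α > 0`: the averages over the integers converge almost everywhere if and only if those along
  `⌊α n ^ c⌋` do. -/
theorem result (c : ℝ) (hc : 1 < c) : ∃ κ : ℝ, 0 < κ ∧ κ < 1 ∧
    ∀ (X : Type u) [MeasurableSpace X] (μ : Measure X) [IsProbabilityMeasure μ] (d k : ℕ) (T : Fin d → Equiv.Perm X),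
    (∀ i, Measurable (T i).symm ∧ MeasurePreserving (T i) μ μ) → ∀ (P : Fin d → Fin k → Polynomial ℤ)
      (f : Fin k → X → ℂ), (∀ j, AEStronglyMeasurable (f j) μ) → (∀ j, ∃ C : ℝ, ∀ᵐ x ∂μ, ‖f j x‖ ≤ C) →
      (∀ᵐ x ∂μ, ∃ E : Set ℝ, dimH E ≤ ENNReal.ofReal (1 - κ) ∧ ∀ α : ℝ, 0 < α → α ∉ E → ∀ L : ℂ,
        Tendsto (avg T P f (fun n => n) x) atTop (𝓝 L) ↔
          Tendsto (avg T P f (fun n => ⌊α * (n : ℝ) ^ c⌋₊) x) atTop (𝓝 L)) ∧
      (∀ᵐ α : ℝ, 0 < α → ∀ᵐ x ∂μ, ∀ L : ℂ,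
        Tendsto (avg T P f (fun n => n) x) atTop (𝓝 L) ↔
          Tendsto (avg T P f (fun n => ⌊α * (n : ℝ) ^ c⌋₊) x) atTop (𝓝 L)) ∧
      (∀ᵐ α : ℝ, 0 < α →
        ((∀ᵐ x ∂μ, ∃ L : ℂ, Tendsto (avg T P f (fun n => n) x) atTop (𝓝 L)) ↔
          ∀ᵐ x ∂μ, ∃ L : ℂ, Tendsto (avg T P f (fun n => ⌊α * (n : ℝ) ^ c⌋₊) x) atTop (𝓝 L))) := by
  obtain ⟨κ, hκ0, hκ1, H⟩ := aeSparse.{u} c hc
  refine ⟨κ, hκ0, hκ1, fun X _ μ _ d k T hT P f hf hfb => ?_⟩
  have q : ∀ (j : Fin k) (m : ℕ), Measure.QuasiMeasurePreserving (S T P j m) μ μ := fun j m =>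
    (S_mem (fun i => mem_mpg (hT i).1 (hT i).2) P j m).1.quasiMeasurePreserving
  obtain ⟨a1, a2⟩ := H X μ (fun x m => ∏ j, f j (S T P j m x))
    (fun m => Finset.aestronglyMeasurable_fun_prod _ fun j _ => (hf j).comp_quasiMeasurePreserving (q j m))
    (by
      choose C hC using hfb
      have b1 : ∀ᵐ x ∂μ, ∀ (j : Fin k) (m : ℕ), ‖f j (S T P j m x)‖ ≤ C j :=
        ae_all_iff.2 fun j => ae_all_iff.2 fun m => (q j m).ae (hC j)
      filter_upwards [b1] with x h1
      refine ⟨∏ j, C j, fun m => ?_⟩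
      rw [norm_prod]
      exact prod_le_prod (fun j _ => norm_nonneg _) fun j _ => h1 j m)
  refine ⟨a1, a2, ?_⟩
  filter_upwards [a2] with α hα hα0
  have h1 := hα hα0
  constructor
  · intro h2
    filter_upwards [h1, h2] with x k1 ⟨L, k2⟩
    exact ⟨L, (k1 L).1 k2⟩
  · intro h2
    filter_upwards [h1, h2] with x k1 ⟨L, k2⟩
    exact ⟨L, (k1 L).2 k2⟩

end Pool.Agent.Results.MP_f720ae_an.AlongDilatedPowers
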