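import Pool.Agent.X85.BoxW

set_option autoImplicit false

/-!
# Unrestricted boxes: additional factors at generic times of flows, arbitrary weights

Let `τ` be a measurable measure preserving flow on a probability space, `h` in `L^∞` and `L(m) = ∑ c_i m_i` a linear
form with real coefficients. We show that for almost every point `x`, for EVERY bounded array of weights `B(m)`, for
almost every `a`, the box averages of `B(m) (h(τ^(a L(m)) x) - E(h|τ)(x))` tend to `0`, over all boxes a longest side of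
which belongs to a variable of `L`. In particular, if all coefficients are different from `0`, over all boxes, with no
restriction on the shape.

Hence the conjecture of Furstenberg, Bergelson and Leibman for given transformations `T_1, ..., T_d`, given polynomials
and given functions (whatever the group generated by the `T_i` is) implies the same for the averages with any number of
additional factors `h_s(τ_s^(a_s L_s(m)) x)`, for almost every `(a_1, ..., a_r)`. The flows `τ_s` need not commute, or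
be related in any way with each other or with the `T_i`.
-/

namespace Pool.Agent.Results.MP_f720ae_an.ExtraGenericFactors

open MeasureTheory Filter Finset

universe u

/-- a measurable measure preserving flow -/
structure IsFlow {X : Type u} [MeasurableSpace X] (μ : Measure X) (τ : ℝ → X → X) : Prop where
  meas : Measurable (fun p : ℝ × X => τ p.1 p.2)
  zero : ∀ x, τ 0 x = x
  add : ∀ s t x, τ (s + t) x = τ s (τ t x)
  mp : ∀ t, MeasurePreserving (τ t) μ μ

/-- the average over the box `[1, M_1] × ... × [1, M_k]` -/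
noncomputable def avg {k : ℕ} (M : Fin k → ℕ) (w : (Fin k → ℕ) → ℂ) : ℂ :=
  (1 / ((∏ i, M i : ℕ) : ℂ)) * ∑ m ∈ Fintype.piFinset (fun i => Icc 1 (M i)), w m

/-- the limit of the averages of `h` along the flow `τ`: the conditional expectation of `h` on the invariant sets -/
noncomputable def mean {X : Type u} [MeasurableSpace X] (μ : Measure X) (τ : ℝ → X → X) (h : X → ℂ) : X → ℂ :=
  μ[h | ⨅ t : ℝ, MeasurableSpace.invariants (τ t)]

/-- (1) Weights. For a.e. `x`, for every bounded array `B`, for a.e. `a`: the averages of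
`B(m) (h(τ^(a L(m)) x) - mean(x))` over the box `[M]` tend to `0` when all sides of the box tend to infinity and a longest
side `M_i` belongs to a variable `m_i` with nonzero coefficient in `L(m) = ∑ c_i m_i`.
(2) Weights which depend on the point, several flows. Let all coefficients of the forms `L_1, ..., L_r` be nonzero, and
let `W_m` be uniformly bounded measurable functions. For a.e. `a ∈ ℝ^r` and a.e. `x`, the averages of
`W_m(x) ∏_s h_s(τ_s^(a_s L_s(m)) x)` minus `∏_s mean_s(x)` times the averages of `W_m(x)` tend to `0` as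
`min M_i → ∞` (unrestricted boxes).
(3) Let `T_1, ..., T_d` be invertible measure preserving maps (the group generated by them is arbitrary), `P_ij` integer
polynomials in `m_1, ..., m_k`, and `f_j ∈ L^∞`, such that the averages of `∏_j f_j(T_1^(P_1j(m)) ... T_d^(P_dj(m)) x)`
over unrestricted boxes converge for a.e. `x`. Then, for a.e. `a ∈ ℝ^r`, so do the averages of
`∏_j f_j(T_1^(P_1j(m)) ... T_d^(P_dj(m)) x) ∏_s h_s(τ_s^(a_s L_s(m)) x)`; the limit is multiplied by `∏_s mean_s(x)`. -/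
theorem result :
    (∀ (X : Type u) [MeasurableSpace X] (μ : Measure X) [IsProbabilityMeasure μ] (τ : ℝ → X → X) (k : ℕ)
      (c : Fin k → ℝ) (h : X → ℂ), IsFlow μ τ → AEStronglyMeasurable h μ → (∃ C : ℝ, ∀ᵐ x ∂μ, ‖h x‖ ≤ C) →
      ∀ᵐ x ∂μ, ∀ B : (Fin k → ℕ) → ℂ, (∃ C : ℝ, ∀ m, ‖B m‖ ≤ C) → ∀ᵐ a : ℝ,
        ∀ ε : ℝ, 0 < ε → ∃ N₀ : ℕ, ∀ M : Fin k → ℕ, (∀ l, N₀ ≤ M l) → (∃ i, c i ≠ 0 ∧ ∀ l, M l ≤ M i) →
          ‖avg M (fun m => B m * (h (τ (a * ∑ i, c i * (m i : ℝ)) x) - mean μ τ h x))‖ ≤ ε) ∧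
    (∀ (X : Type u) [MeasurableSpace X] (μ : Measure X) [IsProbabilityMeasure μ] (k r : ℕ)
      (τ : Fin r → ℝ → X → X) (c : Fin r → Fin k → ℝ) (h : Fin r → X → ℂ) (W : (Fin k → ℕ) → X → ℂ), 0 < k →
      (∀ s, IsFlow μ (τ s)) → (∀ s i, c s i ≠ 0) → (∀ s, AEStronglyMeasurable (h s) μ) →
      (∀ s, ∃ C : ℝ, ∀ᵐ x ∂μ, ‖h s x‖ ≤ C) → (∀ m, AEStronglyMeasurable (W m) μ) →
      (∃ C : ℝ, ∀ m, ∀ᵐ x ∂μ, ‖W m x‖ ≤ C) →
      ∀ᵐ a : Fin r → ℝ, ∀ᵐ x ∂μ, Tendsto (fun M : Fin k → ℕ =>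
        avg M (fun m => W m x * ∏ s, h s (τ s (a s * ∑ i, c s i * (m i : ℝ)) x)) -
          (∏ s, mean μ (τ s) (h s) x) * avg M (fun m => W m x)) atTop (nhds 0)) ∧
    (∀ (X : Type u) [MeasurableSpace X] (μ : Measure X) [IsProbabilityMeasure μ] (k d n r : ℕ)
      (T : Fin d → Equiv.Perm X) (P : Fin d → Fin n → MvPolynomial (Fin k) ℤ) (f : Fin n → X → ℂ)
      (τ : Fin r → ℝ → X → X) (c : Fin r → Fin k → ℝ) (h : Fin r → X → ℂ), 0 < k →
      (∀ i, MeasurePreserving (T i) μ μ) → (∀ i, Measurable (T i).symm) →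
      (∀ j, AEStronglyMeasurable (f j) μ) → (∀ j, ∃ C : ℝ, ∀ᵐ x ∂μ, ‖f j x‖ ≤ C) →
      (∀ s, IsFlow μ (τ s)) → (∀ s i, c s i ≠ 0) → (∀ s, AEStronglyMeasurable (h s) μ) →
      (∀ s, ∃ C : ℝ, ∀ᵐ x ∂μ, ‖h s x‖ ≤ C) →
      (∀ᵐ x ∂μ, ∃ L : ℂ, Tendsto (fun M : Fin k → ℕ => avg M (fun m => ∏ j, f j ((List.ofFn fun i : Fin d =>
        T i ^ (MvPolynomial.eval (fun l => ((m l : ℕ) : ℤ)) (P i j))).prod x))) atTop (nhds L)) →
      ∀ᵐ a : Fin r → ℝ, ∀ᵐ x ∂μ, ∃ L : ℂ,
        Tendsto (fun M : Fin k → ℕ => avg M (fun m => ∏ j, f j ((List.ofFn fun i : Fin d =>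
          T i ^ (MvPolynomial.eval (fun l => ((m l : ℕ) : ℤ)) (P i j))).prod x))) atTop (nhds L) ∧
        Tendsto (fun M : Fin k → ℕ => avg M (fun m => (∏ j, f j ((List.ofFn fun i : Fin d =>
          T i ^ (MvPolynomial.eval (fun l => ((m l : ℕ) : ℤ)) (P i j))).prod x)) *
            ∏ s, h s (τ s (a s * ∑ i, c s i * (m i : ℝ)) x))) atTop
          (nhds ((∏ s, mean μ (τ s) (h s) x) * L))) := by
  refine ⟨?_, ?_, ?_⟩
  · intro X _ μ _ τ k c h hτ hh hhb
    filter_upwards [X85.BoxW.flw_Linf ⟨hτ.meas, hτ.zero, hτ.add, hτ.mp⟩ c hh hhb] with x hx B hB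
    filter_upwards [hx B hB] with a ha ε hε
    have h1 : ∀ i, ∃ N₀ : ℕ, ∀ M : Fin k → ℕ, (∀ l, N₀ ≤ M l) → c i ≠ 0 → (∀ l, M l ≤ M i) →
        ‖avg M (fun m => B m * (h (τ (a * ∑ i, c i * (m i : ℝ)) x) - mean μ τ h x))‖ ≤ ε := by
      intro i
      by_cases hi : c i = 0
      · exact ⟨0, fun M _ h => absurd hi h⟩
      · obtain ⟨N₀, hN⟩ := ha i hi ε hε
        exact ⟨N₀, fun M hM _ hMi => hN M hM hMi⟩
    choose N hN using h1
    exact ⟨univ.sup N, fun M hM ⟨i, hi, hMi⟩ =>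
      hN i M (fun l => (Finset.le_sup (mem_univ i)).trans (hM l)) hi hMi⟩
  · intro X _ μ _ k r τ c h W hk hτ hc hh hhb hW hWb
    exact X85.BoxW.extra hk (fun s => ⟨(hτ s).meas, (hτ s).zero, (hτ s).add, (hτ s).mp⟩) hc hh hhb hW hWb
  · intro X _ μ _ k d n r T P f τ c h hk hT hTm hf hfb hτ hc hh hhb hconv
    obtain ⟨hW, hWb⟩ := X85.BoxW.prod_bd hf hfb (S := fun j (m : Fin k → ℕ) x => (List.ofFn fun i : Fin d =>
      T i ^ (MvPolynomial.eval (fun l => ((m l : ℕ) : ℤ)) (P i j))).prod x)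
      (fun j m => (X85.BoxW.Inv.word (fun i => X85.BoxW.Inv.mk' (hT i) (hTm i)) _).1)
    filter_upwards [X85.BoxW.extra hk (fun s => ⟨(hτ s).meas, (hτ s).zero, (hτ s).add, (hτ s).mp⟩) hc hh hhb
      hW hWb] with a ha
    filter_upwards [ha, hconv] with x hx hx2
    obtain ⟨L, hL⟩ := hx2
    refine ⟨L, hL, ?_⟩
    have h1 := hx.add (hL.const_mul (∏ s, mean μ (τ s) (h s) x))
    rw [zero_add] at h1
    refine h1.congr fun M => ?_
    exact sub_add_cancel _ _

end Pool.Agent.Results.MP_f720ae_an.ExtraGenericFactors
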