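import Pool.Agent.X159.PE.Ex

/-!
# MP_f720ae_an: the Furstenberg–Bergelson–Leibman averages with weights

`FBL w` is the statement of the conjecture for `k` parameters with a weight `w : ℕ ^ k → ℝ`: for all
data the averages over boxes of `w(m) ∏_j f_j(S_j(m) x)` converge almost everywhere when all sides tend
to infinity.

* If finite combinations of the translates of a bounded `w` approximate the constant `1` in the mean
  (for example if the means of `w` over cubes of side `R` tend to a constant `c ≠ 0` in the mean), then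
  `FBL w` implies `FBL 1`. So it is enough to prove the conjecture along one such set.
* If `w` is rationally almost periodic then `FBL 1` implies `FBL w`; if moreover `w` is bounded and has
  a mean `c ≠ 0`, they are equivalent.
* The conjecture is equivalent to the convergence of the averages over the points all of whose
  coordinates are squarefree.
-/

set_option autoImplicit false

namespace Pool.Agent.Results.MP_f720ae_an.WeightedAverages

open MeasureTheory Filter Topology Finset
open Pool.Agent.X159.PE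

/-- the statement of Q1 -/
def Q1 : Prop :=
  ∀ (d k n : ℕ) (X : Type) [MeasurableSpace X] (μ : MeasureTheory.Measure X)
    [MeasureTheory.IsProbabilityMeasure μ] (T : Fin d → Equiv.Perm X),
    (∀ i, Measurable (T i) ∧ Measurable (T i).symm ∧
      MeasureTheory.MeasurePreserving (T i) μ μ) →
    Group.IsNilpotent ↥(Subgroup.closure (Set.range T)) →
    ∀ (P : Fin d → Fin n → MvPolynomial (Fin k) ℤ) (f : Fin n → X → ℝ),
    (∀ j, MeasureTheory.MemLp (f j) ⊤ μ) →
    ∀ᵐ x ∂μ, ∃ L : ℝ, Filter.Tendsto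
      (fun M : Fin k → ℕ => (∏ j, (M j : ℝ))⁻¹ *
        ∑ m ∈ Fintype.piFinset (fun j => Finset.range (M j)),
          ∏ j : Fin n, f j ((List.ofFn (fun i : Fin d =>
            T i ^ (MvPolynomial.eval (fun l => ((m l : ℕ) : ℤ)) (P i j)))).prod x))
      Filter.atTop (nhds L)

/-- the statement of Q1 for the averages over the points with squarefree coordinates -/
def Q1Squarefree : Prop :=
  ∀ (d k n : ℕ) (X : Type) [MeasurableSpace X] (μ : MeasureTheory.Measure X)
    [MeasureTheory.IsProbabilityMeasure μ] (T : Fin d → Equiv.Perm X),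
    (∀ i, Measurable (T i) ∧ Measurable (T i).symm ∧
      MeasureTheory.MeasurePreserving (T i) μ μ) →
    Group.IsNilpotent ↥(Subgroup.closure (Set.range T)) →
    ∀ (P : Fin d → Fin n → MvPolynomial (Fin k) ℤ) (f : Fin n → X → ℝ),
    (∀ j, MeasureTheory.MemLp (f j) ⊤ μ) →
    ∀ᵐ x ∂μ, ∃ L : ℝ, Filter.Tendsto
      (fun M : Fin k → ℕ => (∏ j, (M j : ℝ))⁻¹ *
        ∑ m ∈ (Fintype.piFinset (fun j => Finset.range (M j))).filter
            (fun m => ∀ j, Squarefree (m j)),
          ∏ j : Fin n, f j ((List.ofFn (fun i : Fin d =>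
            T i ^ (MvPolynomial.eval (fun l => ((m l : ℕ) : ℤ)) (P i j)))).prod x))
      Filter.atTop (nhds L)

theorem q1_iff : Q1 ↔ ∀ k : ℕ, FBL (fun _ : Fin k → ℕ => 1) := by
  constructor
  · intro h k d n X _ μ _ T hT hN P f hf
    filter_upwards [h d k n X μ T hT hN P f hf] with x hx
    obtain ⟨L, hL⟩ := hx
    refine ⟨L, hL.congr fun M => ?_⟩
    congr 1
    exact Finset.sum_congr rfl fun m _ => (one_mul _).symm
  · intro h d k n X _ μ _ T hT hN P f hf
    filter_upwards [h k d n X μ T hT hN P f hf] with x hx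
    obtain ⟨L, hL⟩ := hx
    refine ⟨L, hL.congr fun M => ?_⟩
    congr 1
    exact Finset.sum_congr rfl fun m _ => one_mul _

theorem sum_sq {k : ℕ} (S : Finset (Fin k → ℕ)) (F : (Fin k → ℕ) → ℝ) :
    ∑ m ∈ S.filter (fun m => ∀ j, Squarefree (m j)), F m = ∑ m ∈ S, sqInd m * F m := by
  rw [Finset.sum_filter]
  refine Finset.sum_congr rfl fun m _ => ?_
  unfold sqInd
  by_cases h : ∀ j, Squarefree (m j)
  · rw [if_pos h, if_pos h, one_mul]
  · rw [if_neg h, if_neg h, zero_mul]

theorem q1sq_iff : Q1Squarefree ↔ ∀ k : ℕ, FBL (sqInd (k := k)) := by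
  constructor
  · intro h k d n X _ μ _ T hT hN P f hf
    filter_upwards [h d k n X μ T hT hN P f hf] with x hx
    obtain ⟨L, hL⟩ := hx
    refine ⟨L, hL.congr fun M => ?_⟩
    rw [sum_sq]
  · intro h d k n X _ μ _ T hT hN P f hf
    filter_upwards [h k d n X μ T hT hN P f hf] with x hx
    obtain ⟨L, hL⟩ := hx
    refine ⟨L, hL.congr fun M => ?_⟩
    rw [sum_sq]

/-- (1) Bounded weights which unfold. (2) Weights with means over cubes. (3) Rationally almost periodic
weights. (4) Rationally almost periodic weights of nonzero mean. (5) Points with squarefree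
coordinates. -/
theorem result :
    (∀ (k : ℕ) (w : (Fin k → ℕ) → ℝ) (C : ℝ), (∀ m, |w m| ≤ C) →
      (UnfoldsBox w → FBL w → FBL (fun _ : Fin k → ℕ => 1)) ∧
      (∀ c : ℝ, c ≠ 0 → ShortMeansBox w c → FBL w → FBL (fun _ : Fin k → ℕ => 1)) ∧
      (∀ c : ℝ, c ≠ 0 → Tendsto (avgB w) atTop (𝓝 c) → RAPBox w →
        (FBL w ↔ FBL (fun _ : Fin k → ℕ => 1)))) ∧
    (∀ (k : ℕ) (w : (Fin k → ℕ) → ℝ), RAPBox w → FBL (fun _ : Fin k → ℕ => 1) → FBL w) ∧
    (Q1Squarefree ↔ Q1) := by
  refine ⟨fun k w C hC => ⟨fun hu h => fbl_bwd hC hu h,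
    fun c hc hs h => fbl_bwd hC (hs.unfolds hc) h,
    fun c hc hm hr => ⟨fun h => fbl_bwd hC (hr.unfolds hc hm) h, fun h => fbl_fwd hr h⟩⟩,
    fun k w hr h => fbl_fwd hr h, ?_⟩
  rw [q1_iff, q1sq_iff]
  refine forall_congr' fun k => ?_
  obtain ⟨hr, c, hc, hm⟩ := sqInd_facts (k := k)
  exact ⟨fun h => fbl_bwd sqInd_le (hr.unfolds hc hm) h, fun h => fbl_fwd hr h⟩

end Pool.Agent.Results.MP_f720ae_an.WeightedAverages
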